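import Pool.Agent.H38.TIE.Spu

/-!
# Two contexts over one visible point

`z (pt ω)` is a part of the exact point which does not determine the closed label `b`, for example
the near digits, the visible label and the time. `v₀` is the visible label with the time, a function
of `z (pt ω)` and a function of the closed label with the time. If the closed label has little
information about `z (pt ω)` given `v₀`, two contexts can be glued over `z (pt ω)`. Hence a family of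
relations, for which there is no larger one in the contexts of a slightly larger cost, is a function
of `z (pt ω)`, if the values of the jets are functions of `z (pt ω)`.
-/

set_option autoImplicit false

namespace Pool.VIS52

open Finset Polynomial
open Pool.Agent.H49.Ent Pool.Agent.H32.Dense Pool.STK Pool.BFL Pool.GLB Pool.CLU Pool.REL
open Pool.TIE38

section

variable {h m c : ℕ} {NN : Finset (Fin h →₀ ℕ)} {B : Bd h m c} {θ₁ θ₂ θF : ℝ} {Z V : Type}

/-- **A visible part of the exact point.** `z` is the visible point, `v₀` the visible label with the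
time, `θF` the information of the closed label. -/
structure Vz (B : Bd h m c) (z : B.Ξ → Z) (v₀ : B.Ω → V) (θF : ℝ) : Prop where
  vb : Det B.p (fun ω => (B.b ω, B.th ω)) v₀
  vz : Det B.p (fun ω => z (B.pt ω)) v₀
  vt : Det B.p v₀ B.th
  inf : CH B.p B.b v₀ - CH B.p B.b (fun ω => z (B.pt ω)) ≤ θF

theorem law_z (D : Ctx B θ₁) (D' : Ctx B θ₂) (z : B.Ξ → Z) (y : Z) :
    law D.q (fun w => z (B.pt (D.pr w))) y = law D'.q (fun w => z (B.pt (D'.pr w))) y := by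
  rw [D.mg.law (fun ω => z (B.pt ω)) y, D'.mg.law (fun ω => z (B.pt ω)) y]

/-- The information of a context about the visible point, given the visible label. -/
theorem ctx_vis (D : Ctx B θ₂) (hB : B.Ok) {z : B.Ξ → Z} {v₀ : B.Ω → V} (hz : Vz B z v₀ θF) :
    CH D.q D.x (fun w => v₀ (D.pr w)) - CH D.q D.x (fun w => z (B.pt (D.pr w))) ≤ θ₂ + θF := by
  have n0 := D.isLaw.nonneg
  have dvb := D.mg.det n0 hz.vb
  have dvz := D.mg.det n0 hz.vz
  have dvt := D.mg.det n0 hz.vt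
  have dpt := D.mg.det n0 hB.pt_L
  have dbL := D.mg.det n0 hB.b_L
  -- names
  obtain ⟨X, hX⟩ : ∃ X, X = D.x := ⟨_, rfl⟩
  obtain ⟨Y, hY⟩ : ∃ Y : D.W → Z, Y = fun w => z (B.pt (D.pr w)) := ⟨_, rfl⟩
  obtain ⟨v, hv⟩ : ∃ v : D.W → V, v = fun w => v₀ (D.pr w) := ⟨_, rfl⟩
  obtain ⟨b, hb⟩ : ∃ b : D.W → B.Γ, b = fun w => B.b (D.pr w) := ⟨_, rfl⟩
  obtain ⟨l, hl⟩ : ∃ l : D.W → B.Λ, l = fun w => B.L (D.pr w) := ⟨_, rfl⟩
  have xb : Det D.q X b := by rw [hX, hb]; exact D.x_b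
  have xv : Det D.q X v := by
    rw [hX, hv]
    intro w w' h1 h2 h3
    exact dvb w w' h1 h2 (Prod.ext (D.x_b w w' h1 h2 h3) (D.x_t w w' h1 h2 h3))
  have yv : Det D.q Y v := by rw [hY, hv]; exact dvz
  have lb : Det D.q l b := by rw [hl, hb]; exact dbL
  have ly : Det D.q (fun w => (l w, v w)) Y := by
    rw [hl, hv, hY]
    intro w w' h1 h2 h3
    obtain ⟨e1, e2⟩ := Prod.ext_iff.mp h3
    have e3 : B.th (D.pr w) = B.th (D.pr w') := dvt w w' h1 h2 e2
    have e4 := dpt w w' h1 h2 (Prod.ext e1 e3)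
    simp only at e4 ⊢
    rw [e4]
  have hF : CH D.q b v - CH D.q b Y ≤ θF := by
    have e1 := D.mg.CH B.b v₀
    have e2 := D.mg.CH B.b (fun ω => z (B.pt ω))
    have e3 := hz.inf
    rw [hb, hv, hY]
    rw [e1, e2]
    exact e3
  have hD : CH D.q l b - CH D.q l X ≤ θ₂ := by
    rw [hl, hb, hX]
    exact D.inf
  rw [← hX, ← hY, ← hv]
  -- all in terms of joint entropies
  have s1 : H D.q (fun w => (X w, v w)) = H D.q X :=
    H_congr n0 (fun w w' p1 p2 e => Prod.ext e (xv w w' p1 p2 e))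
      (fun _ _ _ _ e => (Prod.ext_iff.mp e).1)
  have s2 : H D.q (fun w => (l w, b w)) = H D.q l :=
    H_congr n0 (fun w w' p1 p2 e => Prod.ext e (lb w w' p1 p2 e))
      (fun _ _ _ _ e => (Prod.ext_iff.mp e).1)
  have s3 : H D.q (fun w => (b w, (Y w, v w))) = H D.q (fun w => (b w, Y w)) :=
    H_congr n0 (fun w w' p1 p2 e => by
        obtain ⟨f1, f2⟩ := Prod.ext_iff.mp e
        exact Prod.ext f1 (Prod.ext f2 (yv w w' p1 p2 f2)))
      (fun _ _ _ _ e => by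
        obtain ⟨f1, f2⟩ := Prod.ext_iff.mp e
        exact Prod.ext f1 (Prod.ext_iff.mp f2).1)
  -- submodularity: `Y` and `X` over `(l, v)` and over `(b, v)`
  have t1 : CH D.q l (fun w => (b w, v w)) ≤ CH D.q l b :=
    CH_mono_cond n0 fun _ _ _ _ e => (Prod.ext_iff.mp e).1
  -- `H (l, X, Y) = H (l, X)`
  have s4 : H D.q (fun w => (l w, (X w, Y w))) = H D.q (fun w => (l w, X w)) :=
    H_congr n0 (fun w w' p1 p2 e => by
        obtain ⟨f1, f2⟩ := Prod.ext_iff.mp e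
        exact Prod.ext f1 (Prod.ext f2 (ly w w' p1 p2 (Prod.ext f1 (xv w w' p1 p2 f2)))))
      (fun _ _ _ _ e => by
        obtain ⟨f1, f2⟩ := Prod.ext_iff.mp e
        exact Prod.ext f1 (Prod.ext_iff.mp f2).1)
  have s5 : H D.q (fun w => (l w, (b w, v w))) = H D.q (fun w => (l w, (Y w, (b w, v w)))) :=
    H_congr n0 (fun _ _ _ _ e => by
        obtain ⟨f1, f2⟩ := Prod.ext_iff.mp e
        exact Prod.ext f1 (Prod.ext_iff.mp f2).2)
      (fun w w' p1 p2 e => by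
        obtain ⟨f1, f2⟩ := Prod.ext_iff.mp e
        obtain ⟨f3, f4⟩ := Prod.ext_iff.mp f2
        exact Prod.ext f1 (Prod.ext (ly w w' p1 p2 (Prod.ext f1 f4)) f2))
  -- `CH l (X, Y) ≤ CH l (Y, b, v)` with `X` determining `b, v`
  have t2 : CH D.q l (fun w => (X w, Y w)) ≤ CH D.q l (fun w => (Y w, (b w, v w))) := by
    refine CH_mono_cond n0 fun w w' p1 p2 e => ?_
    obtain ⟨f1, f2⟩ := Prod.ext_iff.mp e
    exact Prod.ext f2 (Prod.ext (xb w w' p1 p2 f1) (xv w w' p1 p2 f1))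
  have s6 : H D.q (fun w => (b w, v w)) = H D.q (fun w => (b w, v w)) := rfl
  have s7 : H D.q (fun w => (X w, Y w)) = H D.q (fun w => (X w, Y w)) := rfl
  have s8 : H D.q (fun w => (Y w, (b w, v w))) = H D.q (fun w => (b w, Y w)) :=
    H_congr n0 (fun w w' p1 p2 e => by
        obtain ⟨f1, f2⟩ := Prod.ext_iff.mp e
        exact Prod.ext f2 (Prod.ext f1 (yv w w' p1 p2 f2)))
      (fun _ _ _ _ e => by
        obtain ⟨f1, f2⟩ := Prod.ext_iff.mp e
        exact Prod.ext (Prod.ext_iff.mp f2).1 f1)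
  have s9 : H D.q (fun w => (X w, (Y w, v w))) = H D.q (fun w => (X w, Y w)) :=
    H_congr n0 (fun w w' p1 p2 e => by
        obtain ⟨f1, f2⟩ := Prod.ext_iff.mp e
        exact Prod.ext f1 (Prod.ext f2 (yv w w' p1 p2 f2)))
      (fun _ _ _ _ e => by
        obtain ⟨f1, f2⟩ := Prod.ext_iff.mp e
        exact Prod.ext f1 (Prod.ext_iff.mp f2).1)
  unfold CH at hF hD t1 t2 ⊢
  rw [s2] at hD t1
  rw [s4] at t2
  rw [← s5, s8] at t2
  rw [s1]
  linarith

/-- **Two contexts over one visible point.** -/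
noncomputable def vg (D : Ctx B θ₁) (D' : Ctx B θ₂) (hB : B.Ok) {z : B.Ξ → Z} {v₀ : B.Ω → V}
    (hz : Vz B z v₀ θF) : Ctx B (θ₁ + (θ₂ + θF)) where
  W := D.W × D'.W
  ft := inferInstance
  q := glue D.q D'.q (fun w => z (B.pt (D.pr w))) (fun w => z (B.pt (D'.pr w)))
  isLaw := ⟨glue_nonneg D.isLaw.nonneg D'.isLaw.nonneg, by
    rw [sum_glue D.isLaw.nonneg (law_z D D' z), D.isLaw.sum_one]⟩
  pr := fun w => D.pr w.1
  mg := (marg_fst D.isLaw.nonneg (law_z D D' z)).comp D.mg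
  G := D.G × D'.G
  x := fun w => (D.x w.1, D'.x w.2)
  x_b := by
    intro w w' h1 h2 h3
    exact D.x_b _ _ ((glue_pos_iff D.isLaw.nonneg D'.isLaw.nonneg w).1 h1).1
      ((glue_pos_iff D.isLaw.nonneg D'.isLaw.nonneg w').1 h2).1 (Prod.ext_iff.mp h3).1
  x_t := by
    intro w w' h1 h2 h3
    exact D.x_t _ _ ((glue_pos_iff D.isLaw.nonneg D'.isLaw.nonneg w).1 h1).1
      ((glue_pos_iff D.isLaw.nonneg D'.isLaw.nonneg w').1 h2).1 (Prod.ext_iff.mp h3).1
  inf := by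
    have n0 := D.isLaw.nonneg
    have n1 := D'.isLaw.nonneg
    have hZ := law_z D D' z
    obtain ⟨g, hg⟩ : ∃ g, g = glue D.q D'.q (fun w => z (B.pt (D.pr w)))
      (fun w => z (B.pt (D'.pr w))) := ⟨_, rfl⟩
    have g0 : ∀ w, 0 ≤ g w := by
      rw [hg]
      exact glue_nonneg n0 n1
    have gpos : ∀ w, 0 < g w → 0 < D.q w.1 ∧ 0 < D'.q w.2 ∧
        z (B.pt (D.pr w.1)) = z (B.pt (D'.pr w.2)) := by
      intro w hw
      rw [hg] at hw
      exact (glue_pos_iff n0 n1 w).1 hw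
    have m1 : Marg g D.q (fun w => w.1) := by
      rw [hg]
      exact marg_fst n0 hZ
    have m2 : Marg g D'.q (fun w => w.2) := by
      rw [hg]
      exact marg_snd n1 hZ
    rw [← hg]
    have dvz := D.mg.det n0 hz.vz
    have hvv : ∀ w, 0 < g w → v₀ (D.pr w.1) = v₀ (D'.pr w.2) := fun w hw =>
      hz.vz _ _ (D.mg.pos n0 (gpos w hw).1) (D'.mg.pos n1 (gpos w hw).2.1) (gpos w hw).2.2
    -- the second context given the first context and the line
    have a1 : CH g (fun w => D'.x w.2) (fun w => (B.L (D.pr w.1), D.x w.1)) =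
        CH D'.q D'.x (fun w => z (B.pt (D'.pr w))) := by
      have e := Pool.Agent.H32.Dense.CH_glue_snd (Z₁ := fun w => z (B.pt (D.pr w)))
        (Z₂ := fun w => z (B.pt (D'.pr w))) n0 n1 hZ D'.x (Y := fun w => z (B.pt (D'.pr w)))
        (fun w => (B.L (D.pr w), D.x w)) (fun _ _ _ _ e => e)
      rw [← hg] at e
      rw [← e]
      refine CH_congr g0 (fun _ _ _ _ e => (Prod.ext_iff.mp e).1)
        (fun _ _ _ _ e => (Prod.ext_iff.mp e).1) ?_ (fun _ _ _ _ e => (Prod.ext_iff.mp e).2)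
      intro w w' h1 h2 h3
      refine Prod.ext ?_ h3
      simp only
      rw [← (gpos w h1).2.2, ← (gpos w' h2).2.2]
      obtain ⟨h4, h5⟩ := Prod.ext_iff.mp h3
      rw [hB.pt_L _ _ (D.mg.pos n0 (gpos w h1).1) (D.mg.pos n0 (gpos w' h2).1)
        (Prod.ext h4 (D.x_t _ _ (gpos w h1).1 (gpos w' h2).1 h5))]
    -- the second context given the first context
    have a2 : CH g (fun w => D'.x w.2) (fun w => D.x w.1) ≤
        CH D'.q D'.x (fun w => v₀ (D'.pr w)) := by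
      rw [← m2.CH D'.x (fun w => v₀ (D'.pr w))]
      refine CH_mono_cond g0 ?_
      intro w w' h1 h2 h3
      simp only
      rw [← hvv w h1, ← hvv w' h2]
      exact hz.vb _ _ (D.mg.pos n0 (gpos w h1).1) (D.mg.pos n0 (gpos w' h2).1)
        (Prod.ext (D.x_b _ _ (gpos w h1).1 (gpos w' h2).1 h3)
          (D.x_t _ _ (gpos w h1).1 (gpos w' h2).1 h3))
    have a5 := ctx_vis D' hB hz
    -- the first information
    have a6 : CH g (fun w => B.L (D.pr w.1)) (fun w => B.b (D.pr w.1)) =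
        CH D.q (fun w => B.L (D.pr w)) (fun w => B.b (D.pr w)) :=
      m1.CH (fun w => B.L (D.pr w)) (fun w => B.b (D.pr w))
    have a7 : CH g (fun w => B.L (D.pr w.1)) (fun w => D.x w.1) =
        CH D.q (fun w => B.L (D.pr w)) D.x := m1.CH (fun w => B.L (D.pr w)) D.x
    have a8 : CH g (fun w => B.L (D.pr w.1)) (fun w => (D.x w.1, D'.x w.2)) =
        CH g (fun w => B.L (D.pr w.1)) (fun w => D.x w.1) -
          (CH g (fun w => D'.x w.2) (fun w => D.x w.1) -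
            CH g (fun w => D'.x w.2) (fun w => (B.L (D.pr w.1), D.x w.1))) := by
      have c1 := CH_chain g0 (fun w => B.L (D.pr w.1)) (fun w => D'.x w.2) (fun w => D.x w.1)
      have c2 := CH_chain g0 (fun w => D'.x w.2) (fun w => B.L (D.pr w.1)) (fun w => D.x w.1)
      have c3 : CH g (fun w => (B.L (D.pr w.1), D'.x w.2)) (fun w => D.x w.1) =
          CH g (fun w => (D'.x w.2, B.L (D.pr w.1))) (fun w => D.x w.1) :=
        Pool.MIC.CH_swl g0 (fun w => B.L (D.pr w.1)) (fun w => D'.x w.2) (fun w => D.x w.1)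
      have c4 : CH g (fun w => B.L (D.pr w.1)) (fun w => (D'.x w.2, D.x w.1)) =
          CH g (fun w => B.L (D.pr w.1)) (fun w => (D.x w.1, D'.x w.2)) :=
        CH_congr g0 (fun _ _ _ _ e => (Prod.ext_iff.mp e).1)
          (fun _ _ _ _ e => (Prod.ext_iff.mp e).1)
          (fun w w' _ _ e => by
            obtain ⟨f1, f2⟩ := Prod.ext_iff.mp e
            exact Prod.ext f2 f1)
          (fun w w' _ _ e => by
            obtain ⟨f1, f2⟩ := Prod.ext_iff.mp e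
            exact Prod.ext f2 f1)
      linarith
    have h := D.inf
    rw [a8, a6, a7]
    linarith

/-- The value at another sample of the same visible point. -/
theorem ev_nearz {a : Fin c → {γ // γ ∈ NN} → Fin m → ℝ[X]} {C₀ τ₀ R τ : ℝ}
    {ω ω' : B.Ω} (h1 : B.Ty a C₀ τ₀ ω) (h2 : B.Ty a C₀ τ₀ ω')
    (hpt : ∀ α l, |B.fv (B.pt ω) α l - B.fv (B.pt ω') α l| ≤ τ₀)
    {s : Fin m → ℝ} (hs : ∀ α, |s α| ≤ R) {l : Fin c} (hl : |B.ev a ω' s l| ≤ τ) :
    |B.ev a ω s l| ≤ τ + 3 * m * (R * τ₀) := by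
  have h3 : B.ev a ω s l = B.ev a ω' s l +
      ∑ α, s α * (B.ev a ω (Pi.single α 1) l - B.ev a ω' (Pi.single α 1) l) := by
    rw [B.ev_sum a ω s l, B.ev_sum a ω' s l, ← Finset.sum_add_distrib]
    refine Finset.sum_congr rfl fun α _ => ?_
    ring
  have h4 : ∀ α, |B.ev a ω (Pi.single α 1) l - B.ev a ω' (Pi.single α 1) l| ≤ 3 * τ₀ := by
    intro α
    have h5 := h1.2.2 α l
    have h6 := h2.2.2 α l
    have h7 := hpt α l
    rw [abs_le] at h5 h6 h7 ⊢
    constructor <;> linarith [h5.1, h5.2, h6.1, h6.2, h7.1, h7.2]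
  rw [h3]
  refine (abs_add_le _ _).trans (add_le_add hl ?_)
  refine (Finset.abs_sum_le_sum_abs _ _).trans ?_
  have h8 : ∀ α ∈ (univ : Finset (Fin m)), |s α *
      (B.ev a ω (Pi.single α 1) l - B.ev a ω' (Pi.single α 1) l)| ≤ R * (3 * τ₀) := by
    intro α _
    rw [abs_mul]
    exact mul_le_mul (hs α) (h4 α) (abs_nonneg _) ((abs_nonneg _).trans (hs α))
  refine (Finset.sum_le_sum h8).trans (le_of_eq ?_)
  rw [Finset.sum_const, Finset.card_univ, Fintype.card_fin, nsmul_eq_mul]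
  ring

/-- **The family is a function of the visible point.** -/
theorem visZ (D : Ctx B θ₁) (hB : B.Ok) {z : B.Ξ → Z} {v₀ : B.Ω → V} (hz : Vz B z v₀ θF)
    {a : Fin c → {γ // γ ∈ NN} → Fin m → ℝ[X]}
    {C₀ τ₀ τ δ R ρn : ℝ} {P : Finset (Fin m)}
    (hfz : ∀ ω ω', 0 < B.p ω → 0 < B.p ω' → z (B.pt ω) = z (B.pt ω') → B.Ty a C₀ τ₀ ω →
      B.Ty a C₀ τ₀ ω' → ∀ α l, |B.fv (B.pt ω) α l - B.fv (B.pt ω') α l| ≤ τ₀)
    {s : D.G → Fin m → Fin m → ℝ} (hs : VecF R P s) (hδ : 0 < δ) (hρn : 0 ≤ ρn) (hτ1 : 0 ≤ τ)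
    (hU : UB (vg D D hB hz) a C₀ τ₀ P (fun y => s y.1) τ
      ((τ + 3 * m * (R * τ₀) + m * (R * τ)) / δ) ρn) :
    ∃ sv : Z → Fin m → Fin m → ℝ, VecF R P sv ∧
      Pb D.q (fun w => D.GpR a C₀ τ₀ τ P s w ∧
        ¬ ((∀ π ∈ P, sv (z (B.pt (D.pr w))) π π = 1) ∧
          ∀ π ∈ P, ∀ β, |s (D.x w) π β - sv (z (B.pt (D.pr w))) π β| ≤ δ)) ≤
        Real.sqrt (m * ρn) := by
  classical
  have n0 := D.isLaw.nonneg
  obtain ⟨E, hE⟩ : ∃ E : Fin m → D.W × D.W → Prop, E = fun π w =>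
    D.GpR a C₀ τ₀ τ P s w.1 ∧ D.GpR a C₀ τ₀ τ P s w.2 ∧ π ∈ P ∧
      ∃ β, δ < |s (D.x w.1) π β - s (D.x w.2) π β| := ⟨_, rfl⟩
  have h2 : ∀ π ∈ (univ : Finset (Fin m)),
      Pb (glue D.q D.q (fun w => z (B.pt (D.pr w))) (fun w => z (B.pt (D.pr w)))) (E π) ≤ ρn := by
    intro π _
    by_cases hπ : π ∈ P
    · have h1 := spanU (vg D D hB hz) (a := a) (C₀ := C₀) (τ₀ := τ₀) (P := P)
        (R := R) (s := fun y => s y.1) (t := fun y => s y.2 π)
        ⟨fun y π α => hs.1 _ _ _, fun y π hπ α hα hne => hs.2 _ _ hπ _ hα hne⟩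
        (τ₁ := τ) (τ₂ := τ + 3 * m * (R * τ₀)) (δ := δ) (Q := R) hδ hτ1 hU
      refine le_trans ?_ h1
      refine Pool.MIC.Pb_le_of_imp (vg D D hB hz).isLaw.nonneg fun w hw hh => ?_
      rw [hE] at hh
      obtain ⟨g1, g2, -, β, g3⟩ := hh
      have hpos : 0 < D.q w.1 ∧ 0 < D.q w.2 ∧ z (B.pt (D.pr w.1)) = z (B.pt (D.pr w.2)) :=
        (glue_pos_iff (Z₁ := fun w => z (B.pt (D.pr w))) (Z₂ := fun w => z (B.pt (D.pr w))) n0 n0
          w).1 hw
      refine ⟨g1, fun α => hs.1 _ _ _, fun l => ?_, β, ?_⟩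
      · exact ev_nearz g1.1 g2.1 (hfz _ _ (D.mg.pos n0 hpos.1) (D.mg.pos n0 hpos.2.1) hpos.2.2
          g1.1 g2.1) (fun α => hs.1 _ _ _) ((g2.2 π hπ).2 l)
      · have e1 : s (D.x w.2) π - ∑ π' ∈ P, s (D.x w.2) π π' • s (D.x w.1) π' =
            s (D.x w.2) π - s (D.x w.1) π :=
          rest_one hπ (g2.2 π hπ).1 fun π' hπ' hne => hs.2 _ π hπ π' hπ' hne
        show δ < |(s (D.x w.2) π - ∑ π' ∈ P, s (D.x w.2) π π' • s (D.x w.1) π') β|
        rw [e1, Pi.sub_apply, abs_sub_comm]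
        exact g3
    · refine le_trans (le_of_eq ?_) hρn
      unfold Pb
      refine Finset.sum_eq_zero fun w _ => ?_
      rw [if_neg]
      rw [hE]
      exact fun hh => hπ hh.2.2.1
  have h3 : Pb (glue D.q D.q (fun w => z (B.pt (D.pr w))) (fun w => z (B.pt (D.pr w))))
      (fun w => D.GpR a C₀ τ₀ τ P s w.1 ∧ D.GpR a C₀ τ₀ τ P s w.2 ∧
        ∃ π ∈ P, ∃ β, δ < |s (D.x w.1) π β - s (D.x w.2) π β|) ≤ m * ρn := by
    have g0 : ∀ w, 0 ≤ glue D.q D.q (fun w => z (B.pt (D.pr w)))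
        (fun w => z (B.pt (D.pr w))) w := glue_nonneg n0 n0
    refine le_trans (Pool.MIC.Pb_le_of_imp g0 fun w _ hh => ?_)
      ((Pool.MIC.Pb_exists_le g0 E).trans ((Finset.sum_le_sum h2).trans (le_of_eq ?_)))
    · obtain ⟨g1, g2, π, hπ, β, g3⟩ := hh
      refine ⟨π, ?_⟩
      rw [hE]
      exact ⟨g1, g2, hπ, β, g3⟩
    · rw [Finset.sum_const, Finset.card_univ, Fintype.card_fin, nsmul_eq_mul]
  obtain ⟨x, hx⟩ := best D.isLaw (fun w => z (B.pt (D.pr w))) (D.GpR a C₀ τ₀ τ P s)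
    (fun w w' => ∃ π ∈ P, ∃ β, δ < |s (D.x w) π β - s (D.x w') π β|) h3
  refine ⟨fun y => s (D.x (x y)), ⟨fun y π α => hs.1 _ _ _,
    fun y π hπ α hα hne => hs.2 _ _ hπ _ hα hne⟩, le_trans ?_ hx⟩
  refine Pool.MIC.Pb_le_of_imp n0 fun w _ hw => ⟨hw.1, fun hh => hw.2 ?_⟩
  obtain ⟨g1, g2, g3, g4⟩ := hh
  refine ⟨fun π hπ => (g3.2 π hπ).1, fun π hπ β => ?_⟩
  by_contra hc
  push Not at hc
  exact g4 ⟨π, hπ, β, hc⟩

end

end Pool.VIS52
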